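import Pool.Agent.T9h98.EP.Defs

/-!
# Project EP, piece (E7) (helper48): the root datum of type `E₇` in `R^7`

`V` is the set of the integral vectors with `|x|² = 4` and with even sum over each of the seven lines of
the Fano plane.
-/

set_option autoImplicit false

open scoped RealInnerProductSpace

namespace Pool.Agent.T9h48.EP

open Pool.Agent.T9h98.EP Pool.Agent.T9h98.DC

/-- the real vector of an integral vector -/
noncomputable def em (v : Fin 7 → ℤ) : E 7 := WithLp.toLp 2 fun i => (v i : ℝ)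

theorem em_apply (v : Fin 7 → ℤ) (i : Fin 7) : em v i = (v i : ℝ) := rfl

/-- the integral inner product -/
def dt (v w : Fin 7 → ℤ) : ℤ :=
  v 0 * w 0 + v 1 * w 1 + v 2 * w 2 + v 3 * w 3 + v 4 * w 4 + v 5 * w 5 + v 6 * w 6

theorem inner_em (v w : Fin 7 → ℤ) : ⟪em v, em w⟫ = ((dt v w : ℤ) : ℝ) := by
  simp only [PiLp.inner_apply, Fin.sum_univ_seven, em_apply, dt, RCLike.inner_apply, conj_trivial]
  push_cast
  ring

/-- the simple roots -/
def al : Fin 7 → Fin 7 → ℤ :=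
  ![![1, -1, -1, 0, 0, -1, 0], ![0, 0, 0, 0, 0, 2, 0], ![0, 0, 1, 0, -1, -1, -1], ![0, 0, 0, 0, 2, 0, 0],
    ![0, 0, 0, 0, 0, 0, 2], ![0, 1, -1, -1, 0, 0, -1], ![0, 0, 0, 2, 0, 0, 0]]

/-- the dominant vector -/
def om : Fin 7 → ℤ := ![2, 0, 0, 0, 0, 0, 0]

/-- the integral vectors of square norm 4 with even sums over the lines of the Fano plane -/
def Q (v : Fin 7 → ℤ) : Prop :=
  dt v v = 4 ∧ 2 ∣ v 0 + v 1 + v 3 ∧ 2 ∣ v 1 + v 2 + v 4 ∧ 2 ∣ v 2 + v 3 + v 5 ∧ 2 ∣ v 3 + v 4 + v 6 ∧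
    2 ∣ v 4 + v 5 + v 0 ∧ 2 ∣ v 5 + v 6 + v 1 ∧ 2 ∣ v 6 + v 0 + v 2

@[elab_as_elim] theorem cases7 {P : Fin 7 → Prop} (i : Fin 7) (h0 : P 0) (h1 : P 1) (h2 : P 2) (h3 : P 3) (h4 : P 4)
    (h5 : P 5) (h6 : P 6) : P i := by
  fin_cases i <;> assumption

theorem dt_al (i j : Fin 7) : j < i →
    dt (al i) (al j) = if ((i : ℕ) = 4 ∧ (j : ℕ) = 2) ∨ ((i : ℕ) ≠ 4 ∧ (j : ℕ) + 1 = i) then -2 else 0 := by
  revert i j
  decide

theorem dt_self (i : Fin 7) : dt (al i) (al i) = 4 := by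
  revert i
  decide

theorem dt_om (i : Fin 7) : dt om (al i) = if (i : ℕ) = 0 then 2 else 0 := by
  revert i
  decide

theorem even_dt (v : Fin 7 → ℤ) (h : Q v) (i : Fin 7) : ∃ k : ℤ, dt v (al i) = 2 * k := by
  show 2 ∣ dt v (al i)
  obtain ⟨-, h1, h2, h3, h4, h5, h6, h7⟩ := h
  refine cases7 i ?_ ?_ ?_ ?_ ?_ ?_ ?_
  all_goals
    simp only [dt, al, Fin.isValue, Matrix.cons_val]
    omega

theorem refl_Q (v : Fin 7 → ℤ) (h : Q v) (i : Fin 7) (k : ℤ) (hk : dt v (al i) = 2 * k) :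
    Q (fun j => v j - k * al i j) := by
  refine ⟨?_, ?_⟩
  · have e : dt (fun j => v j - k * al i j) (fun j => v j - k * al i j) =
        dt v v - 2 * k * dt v (al i) + k ^ 2 * dt (al i) (al i) := by
      simp only [dt]
      ring
    rw [e, hk, dt_self, h.1]
    ring
  · obtain ⟨-, h1, h2, h3, h4, h5, h6, h7⟩ := h
    clear hk
    refine cases7 i ?_ ?_ ?_ ?_ ?_ ?_ ?_
    all_goals
      simp only [al, Fin.isValue, Matrix.cons_val]
      omega

theorem dom_Q (v : Fin 7 → ℤ) (h : Q v) (hd : ∀ i, 0 ≤ dt v (al i)) : v = om := by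
  obtain ⟨h0, -⟩ := h
  have d0 := hd 0
  have d1 := hd 1
  have d2 := hd 2
  have d3 := hd 3
  have d4 := hd 4
  have d5 := hd 5
  have d6 := hd 6
  simp only [dt, al, Fin.isValue, Matrix.cons_val] at d0 d1 d2 d3 d4 d5 d6 h0
  have p6 : 0 ≤ v 5 := by omega
  have p5 : 0 ≤ v 4 := by omega
  have p7 : 0 ≤ v 6 := by omega
  have p4 : 0 ≤ v 3 := by omega
  have p3 : 0 ≤ v 2 := by omega
  have p2 : 0 ≤ v 1 := by omega
  have p1 : 0 ≤ v 0 := by omega
  have n1 := mul_self_nonneg (v 1)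
  have n2 := mul_self_nonneg (v 2)
  have n3 := mul_self_nonneg (v 3)
  have n4 := mul_self_nonneg (v 4)
  have n5 := mul_self_nonneg (v 5)
  have n6 := mul_self_nonneg (v 6)
  have q0 : v 0 * v 0 ≤ 4 := by linarith
  have q1 : v 0 ≤ 2 := by nlinarith
  have hv : v 0 = 2 := by
    by_contra hne
    have q2 : v 0 ≤ 1 := by omega
    have z3 : v 2 = 0 := by omega
    have z5 : v 4 = 0 := by omega
    have z6 : v 5 = 0 := by omega
    have z7 : v 6 = 0 := by omega
    have l2 : v 1 ≤ 1 := by omega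
    have l4 : v 3 ≤ 1 := by omega
    rw [z3, z5, z6, z7] at h0
    nlinarith
  rw [hv] at h0
  have z (i : ℤ) (hi : i * i = 0) : i = 0 := by
    simpa using hi
  have z1 : v 1 = 0 := z _ (by linarith)
  have z2 : v 2 = 0 := z _ (by linarith)
  have z3 : v 3 = 0 := z _ (by linarith)
  have z4 : v 4 = 0 := z _ (by linarith)
  have z5 : v 5 = 0 := z _ (by linarith)
  have z6 : v 6 = 0 := z _ (by linarith)
  funext i
  fin_cases i
  all_goals simp [om, hv, z1, z2, z3, z4, z5, z6]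

theorem fin_Q : {v : Fin 7 → ℤ | Q v}.Finite := by
  refine (Set.finite_Icc (fun _ : Fin 7 => (-2 : ℤ)) (fun _ => 2)).subset ?_
  intro v hv
  have h0 := hv.1
  simp only [dt] at h0
  have n0 := mul_self_nonneg (v 0)
  have n1 := mul_self_nonneg (v 1)
  have n2 := mul_self_nonneg (v 2)
  have n3 := mul_self_nonneg (v 3)
  have n4 := mul_self_nonneg (v 4)
  have n5 := mul_self_nonneg (v 5)
  have n6 := mul_self_nonneg (v 6)
  have key (x : ℤ) (hx : x * x ≤ 4) : -2 ≤ x ∧ x ≤ 2 := ⟨by nlinarith, by nlinarith⟩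
  have k : ∀ i, -2 ≤ v i ∧ v i ≤ 2 := by
    intro i
    refine cases7 i ?_ ?_ ?_ ?_ ?_ ?_ ?_
    all_goals exact key _ (by linarith)
  exact ⟨fun i => (k i).1, fun i => (k i).2⟩

theorem lin_al : LinearIndependent ℝ fun i => em (al i) := by
  rw [Fintype.linearIndependent_iff]
  intro g hg
  have hc : ∀ j : Fin 7, ∑ i, g i * (al i j : ℝ) = 0 := by
    intro j
    have := congrArg (fun x : E 7 => x j) hg
    simpa [em_apply] using this
  have c0 := hc 0
  have c1 := hc 1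
  have c2 := hc 2
  have c3 := hc 3
  have c4 := hc 4
  have c5 := hc 5
  have c6 := hc 6
  simp only [Fin.sum_univ_seven, al, Fin.isValue, Matrix.cons_val] at c0 c1 c2 c3 c4 c5 c6
  push_cast at c0 c1 c2 c3 c4 c5 c6
  have g0 : g 0 = 0 := by linarith
  have g5 : g 5 = 0 := by linarith
  have g2 : g 2 = 0 := by linarith
  have g6 : g 6 = 0 := by linarith
  have g3 : g 3 = 0 := by linarith
  have g1 : g 1 = 0 := by linarith
  have g4 : g 4 = 0 := by linarith
  intro i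
  fin_cases i
  all_goals assumption

/-- the root datum of type `E₇` -/
noncomputable def dat : RD 7 where
  α i := em (al i)
  ω := em om
  V := em '' {v | Q v}
  c := 2
  cpos := two_pos
  hd := by norm_num
  norm i := by
    rw [inner_em, dt_self]
    norm_num
  adj i j h := by
    rw [inner_em, dt_al i j h]
    split_ifs <;> norm_num
  lin := lin_al
  fin := fin_Q.image _
  mem := ⟨om, by unfold Q; decide, rfl⟩
  nrm := by
    rintro _ ⟨v, hv, rfl⟩
    have h1 : ‖em v‖ ^ 2 = ‖em om‖ ^ 2 := by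
      rw [← real_inner_self_eq_norm_sq, ← real_inner_self_eq_norm_sq, inner_em, inner_em, hv.1]
      have : dt om om = 4 := by decide
      rw [this]
    exact (sq_eq_sq₀ (norm_nonneg _) (norm_nonneg _)).1 h1
  refl := by
    rintro i _ ⟨v, hv, rfl⟩
    obtain ⟨k, hk⟩ := even_dt v hv i
    refine ⟨_, refl_Q v hv i k hk, ?_⟩
    rw [inner_em, hk]
    have : (((2 * k : ℤ) : ℝ)) / 2 = (k : ℝ) := by
      push_cast
      ring
    rw [this]
    ext j
    simp [em_apply]
  ring i := by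
    rw [inner_em, dt_om]
    split_ifs <;> norm_num
  dom := by
    rintro _ ⟨v, hv, rfl⟩ h
    rw [dom_Q v hv fun i => ?_]
    have := h i
    rw [inner_em] at this
    exact_mod_cast this

/-- **(E7)** -/
theorem e7 : S_E7 := ⟨dat⟩

end Pool.Agent.T9h48.EP
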